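import Mathlib
import Pool.Agent.Q151.XI.Cx

/-!
# All gaps between the mapping index of a complex and the cross-index of its face poset

The definitions (`GComplex`, its geometric realization, `GComplex.IsFree`, `E G k`, `ind`,
`GPoset`, `Q G n`, `Xind` and the face poset) are in `Pool.Agent.Q151.XI.Defs`.
-/

set_option autoImplicit false

namespace Pool.Agent.Results.MP_848d58_co.AllGaps

open Q151.XI

/-- For every nontrivial finite group `G` and all positive integers `m < n` there is a finite free
`G`-simplicial complex `K` with mapping index `m` whose face poset has cross-index `n`. -/
theorem result (G : Type) [Group G] [Fintype G] [Nontrivial G] (m n : ℕ) (hm : 0 < m)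
    (hmn : m < n) :
    ∃ K : GComplex G, K.IsFree ∧ ind G K.Realization = m ∧ Xind K.facePoset = n :=
  exists_complex G Fintype.one_lt_card m n hm hmn

end Pool.Agent.Results.MP_848d58_co.AllGaps
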